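import Pool.Agent.X31.S8
import Pool.Agent.X31.S7

/-!
# The least primes in almost all residue classes, for almost all moduli near
# the values of generalised polynomials

`f(t) = ∑ u_x t ^ x` is an arbitrary finite real combination of real powers of `t` with a positive largest exponent `c`
(for instance `t ^ {3/2}`, `√2 t ^ 3 + t`, `t ^ {1/10}`). The values considered are `b₀ + θ f(n)`, `n ≤ Y`, with arbitrary
real `b₀` and `θ` for which these values are of size `N` (for instance `θ = N / Y ^ c`).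
For almost all elements `n` of an ARBITRARY dense set `M ⊆ {1, ..., Y}`, ALL moduli `a` within `log ^ D N` of the value at `n`
(and at least `N / log ^ κ N`) satisfy, for all `1 ≤ lam ≤ (log a) ^ κ`: the least prime `p(a, b)` is larger than
`lam φ(a) log a` for at most `(1 + ε) φ(a) / lam` of the reduced classes `b` (for `lam = C₁ log a`: `p(a, b) ≤ C₁ φ(a) log² a`
for all reduced classes except for a proportion of at most `(1 + ε) / (C₁ log a)`), and for all `η > 0` at most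
`(1 + ε) φ(a) / (η² lam)` of the reduced classes `b` have `|ψ(lam φ(a) log a; a, b) - lam log a| ≥ η lam log a`.

The minimal real additive energy of generalised polynomials is from `Pool.Agent.X31` (`gp_EB`, in this run);
the theorem for families of small energy is in the starting files (`MP_5b0a7e_nt.ThinFamilyModuli`).
-/

set_option autoImplicit false

namespace Pool.Agent.Results.MP_5b0a7e_nt.GeneralisedPolynomialModuli

open Finset

/-- the generalised polynomial with the exponents `x ∈ F` and the coefficients `u x` -/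
noncomputable def f (F : Finset ℝ) (u : ℝ → ℝ) (t : ℝ) : ℝ := ∑ x ∈ F, u x * t ^ x

/-- `M` is a subset of `{1, ..., Y}` with at least `Y / log ^ D N` elements, `Y ≤ N ^ D`; the number `θ` is at most
`log ^ D N` and at least `N / (Y ^ c log ^ D N)` in absolute value, and `|b₀ + θ f(n)| ≤ N` for all `n ∈ M`. -/
def Fam (F : Finset ℝ) (u : ℝ → ℝ) (c : ℝ) (D N Y : ℕ) (θ b₀ : ℝ) (M : Finset ℕ) : Prop :=
  (Y : ℝ) ≤ (N : ℝ) ^ D ∧ |θ| ≤ Real.log N ^ D ∧ (N : ℝ) / Real.log N ^ D ≤ |θ| * (Y : ℝ) ^ c ∧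
  M ⊆ Icc 1 Y ∧ (Y : ℝ) / Real.log N ^ D ≤ M.card ∧ ∀ n ∈ M, |b₀ + θ * f F u n| ≤ N

open Classical in
/-- The number of the `b` with `0 ≤ b < a` and `gcd(a, b) = 1` for which no prime `p ≤ y` is congruent to `b` modulo
`a`; for `a ≥ 2` this is the number of the reduced classes with `p(a, b) > y`. -/
noncomputable def late (a : ℕ) (y : ℝ) : ℕ :=
  ((range a).filter (fun b => Nat.Coprime b a ∧ ∀ p : ℕ, p.Prime → (p : ℝ) ≤ y → ¬ p % a = b)).card

/-- `ψ(y; a, b) = ∑_{n ≤ y, n ≡ b mod a} Λ(n)` for `0 ≤ b < a` -/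
noncomputable def psiAP (y : ℝ) (a b : ℕ) : ℝ :=
  ∑ n ∈ (Icc 1 ⌊y⌋₊).filter (fun n => n % a = b), ArithmeticFunction.vonMangoldt n

open Classical in
/-- The number of the `b` with `0 ≤ b < a` and `gcd(a, b) = 1` with
`|ψ(lam φ(a) log a; a, b) - lam log a| ≥ η lam log a`. -/
noncomputable def off (a : ℕ) (lam η : ℝ) : ℕ :=
  ((range a).filter (fun b => Nat.Coprime b a ∧ η * (lam * Real.log a) ≤
    |psiAP (lam * (Nat.totient a * Real.log a)) a b - lam * Real.log a|)).card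

/-- For all real `1 ≤ lam ≤ (log a) ^ κ`: the least prime `p(a, b)` is larger than `lam φ(a) log a` for at most
`(1 + ε) φ(a) / lam` of the reduced classes `b`, and for all `η > 0` at most `(1 + ε) φ(a) / (η² lam)` of the reduced classes
`b` have `|ψ(lam φ(a) log a; a, b) - lam log a| ≥ η lam log a`. -/
def Good (ε : ℝ) (κ a : ℕ) : Prop :=
  ∀ lam : ℝ, 1 ≤ lam → lam ≤ Real.log a ^ κ →
    (late a (lam * (Nat.totient a * Real.log a)) : ℝ) ≤ (1 + ε) * Nat.totient a / lam ∧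
    ∀ η : ℝ, 0 < η → (off a lam η : ℝ) ≤ (1 + ε) * Nat.totient a / (lam * η ^ 2)

lemma dat_of {F : Finset ℝ} {u : ℝ → ℝ} {c : ℝ} {D N Y : ℕ} {θ b₀ : ℝ} {M : Finset ℕ}
    (h : Fam F u c D N Y θ b₀ M) : Pool.Agent.X31.DatG c D N Y θ b₀ (fun n => Pool.Agent.X31.gp F u n) M :=
  ⟨h.1, h.2.1, h.2.2.1, h.2.2.2.1, h.2.2.2.2.1, h.2.2.2.2.2⟩

/-- Let `F` be a finite set of real numbers with the maximum `c > 0`, `u c ≠ 0`, and
`f(t) = ∑_{x ∈ F} u x * t ^ x`. Let `D`, `U`, `κ` be natural numbers and `0 < ε ≤ 1`. For all sufficiently large `N`,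
all `Y`, all real `θ`, `b₀` and all sets `M` with
`Fam F u c D N Y θ b₀ M`: for all but at most
`#M / log ^ U N` elements `n` of `M`, ALL natural numbers `a ≥ N / log ^ κ N` with `|a - (b₀ + θ * f F u n)| ≤ log ^ D N` satisfy
`Good ε κ a`. -/
theorem result (F : Finset ℝ) (u : ℝ → ℝ) (c : ℝ) (hcF : c ∈ F) (hmax : ∀ x ∈ F, x ≤ c)
    (huc : u c ≠ 0) (hc : 0 < c) (D U κ : ℕ) (ε : ℝ)
    (hε : 0 < ε) (hε1 : ε ≤ 1) :
    ∃ N₀ : ℕ, ∀ N : ℕ, N₀ ≤ N → ∀ (Y : ℕ) (θ b₀ : ℝ) (M : Finset ℕ), Fam F u c D N Y θ b₀ M →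
      ∃ E : Finset ℕ, (E.card : ℝ) ≤ M.card / Real.log N ^ U ∧ ∀ n ∈ M, n ∉ E →
        ∀ a : ℕ, (N : ℝ) / Real.log N ^ κ ≤ a → |(a : ℝ) - (b₀ + θ * f F u n)| ≤ Real.log N ^ D → Good ε κ a := by
  classical
  obtain ⟨N₀, h0⟩ := (Pool.Agent.X31.Sch_gp F u c hcF hmax huc hc).single D U _
    (fun h' _ => Pool.Agent.X31.famO_lp h' ε hε hε1 κ)
  refine ⟨N₀ + 3, fun N hN Y θ b₀ M hfam => ?_⟩
  have hNr : (3 : ℝ) ≤ N := by exact_mod_cast (by omega : 3 ≤ N)
  have hl : 0 < Real.log N := Real.log_pos (by linarith)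
  obtain ⟨E, hE1, hE2⟩ := h0 N (by omega) M _ ⟨Y, θ, b₀, dat_of hfam, fun _ => rfl⟩
  refine ⟨E, hE1, fun n hn hnE a ha has => ?_⟩
  rw [div_le_iff₀ (by positivity)] at ha
  have ha0 : 0 < a := by
    by_contra hcon
    have h1 : a = 0 := by omega
    rw [h1, Nat.cast_zero, zero_mul] at ha
    linarith
  have h1 := hE2 n hn hnE (a : ℤ) (by push_cast; exact has) (by exact_mod_cast ha0) (by push_cast; exact ha)
  rw [Int.toNat_natCast] at h1
  exact h1

end Pool.Agent.Results.MP_5b0a7e_nt.GeneralisedPolynomialModuli
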